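import Pool.Agent.H28.Gam

set_option autoImplicit false

namespace Pool.Agent.Results.MP_1bde1f_co.Dense

open Finset Pool.Agent.H28.Gam

variable {V V' E T X : Finset ℕ} {A : Finset (ℕ × ℕ)} {I : Set (Finset ℕ)}

lemma mem_path {t : ℕ} : ∀ {p : List ℕ}, (p.IsChain fun a b => (a, b) ∈ A) → p.getLast? = some t →
    ∀ v ∈ p, v = t ∨ ∃ a ∈ A, a.1 = v
  | [], _, _, _, hv => by simp at hv
  | [a], _, h, v, hv => by simp_all
  | a :: b :: l, hc, h, v, hv => by
    rw [List.isChain_cons_cons] at hc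
    rcases List.mem_cons.1 hv with rfl | hv
    · exact Or.inr ⟨_, hc.1, rfl⟩
    · exact mem_path hc.2 (by simpa using h) v hv

lemma congrV (h : Routable V A X T) (hT : T ⊆ V') (hA : ∀ a ∈ A, a.1 ∈ V') : Routable V' A X T := by
  obtain ⟨R, h1, h2⟩ := h
  refine ⟨R, fun p hp => ⟨(h1 p hp).1, fun v hv => ?_, (h1 p hp).2.2⟩, h2⟩
  obtain ⟨t, ht, hl⟩ := (h1 p hp).2.2
  rcases mem_path (h1 p hp).1.2.2 hl v hv with rfl | ⟨a, ha, rfl⟩
  exacts [hT ht, hA a ha]

lemma sub (h : Routable V A X T) : X ⊆ V := fun x hx => by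
  obtain ⟨R, h1, -, h3⟩ := h
  obtain ⟨p, hp, e⟩ := h3 x hx
  exact (h1 p hp).2.1 x (List.mem_of_head? e)

lemma map {σ : ℕ → ℕ} {A' : Finset (ℕ × ℕ)} (h : Routable V A X T) (hσ : Set.InjOn σ V)
    (hV : ∀ v ∈ V, σ v ∈ V') (hA : ∀ a ∈ A, a.map σ σ ∈ A') (hX : ∀ x ∈ X, σ x = x)
    (hT : ∀ x ∈ T, σ x = x) : Routable V' A' X T := by
  obtain ⟨R, h1, h2, h3⟩ := h
  refine ⟨List.map σ '' R, ?_, ?_, fun x hx => ?_⟩
  · rintro _ ⟨p, hp, rfl⟩
    obtain ⟨⟨a, b, c⟩, d, t, ht, e⟩ := h1 p hp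
    refine ⟨⟨by simpa using a, b.map_on fun x hx y hy => hσ (d x hx) (d y hy),
      List.isChain_map_of_isChain σ (fun a b h => hA _ h) c⟩, ?_, t, ht, by simp [e, hT t ht]⟩
    simpa using fun v hv => hV v (d v hv)
  · rintro _ ⟨p, hp, rfl⟩ _ ⟨q, hq, rfl⟩ hne v a b
    obtain ⟨x, hx, rfl⟩ := List.mem_map.1 a
    obtain ⟨y, hy, e⟩ := List.mem_map.1 b
    exact h2 hp hq (fun e => hne (by rw [e])) hx
      (hσ ((h1 q hq).2.1 y hy) ((h1 p hp).2.1 x hx) e ▸ hy)
  · obtain ⟨p, hp, e⟩ := h3 x hx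
    exact ⟨_, ⟨p, hp, rfl⟩, by simp [e, hX x hx]⟩

lemma normal {W : Finset ℕ} (h : IsStdRep E I V A T) (hW : Disjoint E W) (hc : 2 * #A ≤ #W) :
    ∃ A', IsStdRep E I (E ∪ W) A' T ∧ #A' = #A := by
  obtain ⟨⟨h1, h2, h3, rfl⟩, h5, h6, h7⟩ := h
  let U := E ∪ (A.image Prod.fst ∪ A.image Prod.snd)
  obtain ⟨g, hg, hi⟩ := (A.image Prod.fst ∪ A.image Prod.snd).finite_toSet.exists_injOn_of_encard_le
    (t := (W : Set ℕ)) (by
      rw [Set.encard_coe_eq_coe_finsetCard, Set.encard_coe_eq_coe_finsetCard, Nat.cast_le]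
      refine (card_union_le _ _).trans ?_
      have := card_image_le (s := A) (f := Prod.fst)
      have := card_image_le (s := A) (f := Prod.snd)
      omega)
  let σ : ℕ → ℕ := fun v => if v ∈ E then v else g v
  have hE : ∀ v ∈ E, σ v = v := fun v hv => if_pos hv
  have hU : ∀ v ∈ U, v ∉ E → σ v = g v ∧ g v ∈ W ∧ g v ∉ E := fun v hv h =>
    have : g v ∈ W := hg (mem_coe.2 ((mem_union.1 hv).resolve_left h))
    ⟨if_neg h, this, disjoint_right.1 hW this⟩
  have hσ : Set.InjOn σ U := fun x hx y hy e => by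
    by_cases a : x ∈ E <;> by_cases b : y ∈ E
    · rwa [hE x a, hE y b] at e
    · rw [hE x a, (hU y hy b).1] at e; exact ((hU y hy b).2.2 (e ▸ a)).elim
    · rw [hE y b, (hU x hx a).1] at e; exact ((hU x hx a).2.2 (e ▸ b)).elim
    · rw [(hU y hy b).1, (hU x hx a).1] at e
      exact hi (mem_coe.2 ((mem_union.1 hx).resolve_left a)) (mem_coe.2 ((mem_union.1 hy).resolve_left b)) e
  have hV : ∀ v ∈ U, σ v ∈ E ∪ W := fun v hv => by
    by_cases a : v ∈ E
    · simp [hE v a, a]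
    · simp [hU v hv a]
  have hA : ∀ a ∈ A, a.1 ∈ U ∧ a.2 ∈ U := fun a ha =>
    ⟨mem_union_right _ (mem_union_left _ (mem_image_of_mem _ ha)),
      mem_union_right _ (mem_union_right _ (mem_image_of_mem _ ha))⟩
  have hEU : E ⊆ U := subset_union_left
  have hfix : ∀ v ∈ U, σ v ∈ E → σ v = v := fun v hv h => hE v (hσ (hEU h) hv (hE _ h) ▸ h)
  refine ⟨A.image (Prod.map σ σ), ⟨⟨?_, subset_union_left, h5.trans subset_union_left,
    Set.ext fun X => and_congr_right fun hX => ⟨fun h => ?_, fun h => ?_⟩⟩, h5, ?_, ?_⟩,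
    card_image_of_injOn fun a ha b hb e => Prod.ext (hσ (hA a ha).1 (hA b hb).1 (congrArg Prod.fst e))
      (hσ (hA a ha).2 (hA b hb).2 (congrArg Prod.snd e))⟩
  · exact image_subset_iff.2 fun a ha => mem_product.2 ⟨hV _ (hA a ha).1, hV _ (hA a ha).2⟩
  · exact map (congrV h (h5.trans hEU) fun a ha => (hA a ha).1) hσ hV
      (fun a ha => mem_image_of_mem _ ha) (fun x hx => hE x (hX hx)) fun x hx => hE x (h5 hx)
  · have hl := hσ.leftInvOn_invFunOn
    have hE' : ∀ x ∈ E, Function.invFunOn σ U x = x := fun x hx => by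
      have := hl (hEU hx); rwa [hE x hx] at this
    refine congrV (V := U) (map (σ := Function.invFunOn σ U) (congrV (V' := U.image σ) h (fun t ht =>
      mem_image.2 ⟨t, hEU (h5 ht), hE t (h5 ht)⟩) (forall_mem_image.2 fun a ha =>
        mem_image_of_mem _ (hA a ha).1)) ?_ (forall_mem_image.2 fun a ha => (hl ha).symm ▸ ha)
      (forall_mem_image.2 fun a ha => ?_) (fun x hx => hE' x (hX hx)) fun x hx => hE' x (h5 hx))
      h3 fun a ha => (mem_product.1 (h1 ha)).1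
    · rw [coe_image]; exact Function.invFunOn_injOn_image _ _
    · rwa [Prod.map_map, Prod.map, Function.comp, Function.comp, hl (hA a ha).1, hl (hA a ha).2]
  · exact forall_mem_image.2 fun a ha h => h6 a ha (hfix _ (hA a ha).1 (h5 h) ▸ h)
  · exact forall_mem_image.2 fun a ha h => h7 a ha (hfix _ (hA a ha).2 (mem_sdiff.1 h).1 ▸ h)

lemma loops {E' : Finset ℕ} (h : IsStdRep E I V A T) (hE : E ⊆ E') :
    ∃ V' A', IsStdRep E' I V' A' T ∧ #A' = #A := by
  obtain ⟨W, hW, hc⟩ := (Set.Finite.infinite_compl E'.finite_toSet).exists_subset_card_eq (2 * #A)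
  have hd : ∀ v ∈ E ∪ W, v ∈ E' → v ∈ E := fun v hv h =>
    (mem_union.1 hv).resolve_right fun h' => hW h' h
  obtain ⟨A', ⟨⟨h1, -, h3, rfl⟩, h5, h6, h7⟩, e⟩ :=
    normal h (disjoint_right.2 fun v hv h => hW hv (hE h)) hc.ge
  have hs := union_subset_union_left (t := W) hE
  refine ⟨E' ∪ W, A', ⟨⟨h1.trans (product_subset_product hs hs), subset_union_left, h3.trans hs,
    Set.ext fun X => ⟨fun h => ⟨h.1.trans hE, congrV h.2 (h3.trans hs) fun a ha =>
      hs (mem_product.1 (h1 ha)).1⟩, fun h => ?_⟩⟩, h5.trans hE, h6, fun a ha h => h7 a ha ?_⟩, e⟩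
  · have := congrV h.2 h3 fun a ha => (mem_product.1 (h1 ha)).1
    exact ⟨fun x hx => hd x (sub this hx) (h.1 hx), this⟩
  · exact mem_sdiff.2 ⟨hd _ (mem_product.1 (h1 ha)).2 (mem_sdiff.1 h).1, (mem_sdiff.1 h).2⟩

lemma triv (hT : T ⊆ V) : Routable V A T T :=
  ⟨{p | ∃ t ∈ T, p = [t]}, by rintro _ ⟨t, ht, rfl⟩; simp [IsPath, ht, hT ht],
    by rintro _ ⟨t, ht, rfl⟩ _ ⟨s, hs, rfl⟩ h; simpa [eq_comm] using h, fun x hx => ⟨_, ⟨x, hx, rfl⟩, rfl⟩⟩

lemma arcC_loops {E' : Finset ℕ} (h : IsStdRep E I V A T) (hE : E ⊆ E') : arcC E' I = arcC E I := by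
  have hI : ∀ X ∈ I, X ⊆ E := fun X hX => (h.1.2.2.2.subset hX).1
  unfold arcC
  congr 1
  ext m
  constructor
  · rintro ⟨V, A, T, ⟨⟨h1, h2, h3, h4⟩, h5, h6, h7⟩, e⟩
    exact ⟨V, A, T, ⟨⟨h1, hE.trans h2, h3, Set.ext fun X => ⟨fun hX => ⟨hI X hX, (h4.subset hX).2⟩,
      fun hX => h4.symm.subset ⟨hX.1.trans hE, hX.2⟩⟩⟩, hI T (h4.symm.subset ⟨h5, triv h3⟩), h6,
      fun a ha h => h7 a ha (sdiff_subset_sdiff hE subset_rfl h)⟩, e⟩
  · rintro ⟨V, A, T, h, rfl⟩
    obtain ⟨V', A', h⟩ := loops h hE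
    exact ⟨V', A', T, h⟩

lemma bip {k : ℕ} {G : Finset (ℕ × ℕ)} (hG : G ⊆ Ico k (2 * k) ×ˢ range k) {x t : ℕ}
    (hx : x ∈ Ico k (2 * k)) (ht : t ∈ range k) :
    (x, t) ∈ G ↔ Routable (range (2 * k)) G (insert x ((range k).erase t)) (range k) := by
  simp only [mem_Ico, mem_range] at hx ht
  constructor
  · intro h
    refine ⟨insert [x, t] {p | ∃ s ∈ (range k).erase t, p = [s]}, ?_, ?_, ?_⟩
    · rintro _ (rfl | ⟨s, hs, rfl⟩) <;> simp [IsPath, *] at * <;> omega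
    · rintro _ (rfl | ⟨s, hs, rfl⟩) _ (rfl | ⟨s', hs', rfl⟩) hne <;> simp at * <;> omega
    · intro y hy
      rcases mem_insert.1 hy with rfl | hy
      exacts [⟨_, Or.inl rfl, rfl⟩, ⟨_, Or.inr ⟨y, hy, rfl⟩, rfl⟩]
  · rintro ⟨R, h1, h2, h3⟩
    obtain ⟨p, hp, e⟩ := h3 x (mem_insert_self _ _)
    obtain ⟨⟨-, -, hc⟩, -, s, hs, hl⟩ := h1 p hp
    match p, e with
    | [a], e => simp at e hl hs; omega
    | a :: y :: l, e =>
      obtain rfl : a = x := by simpa using e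
      have hy := (List.isChain_cons_cons.1 hc).1
      by_contra hn
      have hy' := mem_range.1 (mem_product.1 (hG hy)).2
      obtain ⟨q, hq, e'⟩ := h3 y (mem_insert_of_mem (mem_erase.2 ⟨fun h => hn (h ▸ hy), by simpa⟩))
      exact h2 hp hq (by rintro rfl; simp at e'; omega) (by simp) (List.mem_of_head? e')

lemma big (c : ℕ) : ∃ k, 0 < k ∧ ∃ I V A T, IsStdRep (range (2 * k)) I V A T ∧
    c * k < arcC (range (2 * k)) I := by
  obtain ⟨j, hj⟩ : ∃ j, c + 2 + 2 * c * (c + 1 + j) < 2 ^ j := by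
    refine ⟨2 * (5 * c + 2), ?_⟩
    have := Nat.pow_lt_pow_left (Nat.lt_two_pow_self (n := 5 * c + 2)) two_ne_zero
    rw [← pow_mul, mul_comm _ 2] at this
    nlinarith
  set k := 2 ^ j with hk
  have hk0 : 0 < k := by positivity
  by_contra hcon
  push Not at hcon
  have hrep : ∀ G ⊆ Ico k (2 * k) ×ˢ range k, IsStdRep (range (2 * k))
      {X | X ⊆ range (2 * k) ∧ Routable (range (2 * k)) G X (range k)} (range (2 * k)) G (range k) :=
    fun G hG => by
      have := fun a ha => mem_product.1 (hG (x := a) ha)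
      simp only [mem_Ico, mem_range] at this
      have hs : range k ⊆ range (2 * k) := range_subset_range.2 (by omega)
      refine ⟨⟨fun a ha => ?_, subset_rfl, hs, rfl⟩, hs, fun a ha => ?_, fun a ha => ?_⟩ <;>
        have := this a ha <;> simp <;> omega
  have key : ∀ G ⊆ Ico k (2 * k) ×ˢ range k, ∃ p ∈ ((range (c * k + 1)).biUnion fun m =>
      (range (2 * k + 2 * (c * k)) ×ˢ range (2 * k + 2 * (c * k))).powersetCard m) ×ˢ
        (range (2 * k)).powerset, {X | X ⊆ range (2 * k) ∧ Routable (range (2 * k)) G X (range k)} =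
      {X | X ⊆ range (2 * k) ∧ Routable (range (2 * k + 2 * (c * k))) p.1 X p.2} := fun G hG => by
    have h1 := hcon k hk0 _ _ _ _ (hrep G hG)
    obtain ⟨V, A, T, h, e⟩ : arcC _ _ ∈ _ := Nat.sInf_mem ⟨_, _, _, _, hrep G hG, rfl⟩
    obtain ⟨A', h, e'⟩ := normal (W := Ico (2 * k) (2 * k + 2 * (c * k))) h
      (by simp [disjoint_left]; omega) (by simp; omega)
    rw [range_eq_Ico, Ico_union_Ico_eq_Ico (by omega) (by omega), ← range_eq_Ico, ← range_eq_Ico] at h
    exact ⟨(A', T), mem_product.2 ⟨mem_biUnion.2 ⟨#A', by simp; omega,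
      mem_powersetCard.2 ⟨h.1.1, rfl⟩⟩, mem_powerset.2 h.2.1⟩, h.1.2.2.2⟩
  choose! f hf he using key
  have := card_le_card_of_injOn f (s := (Ico k (2 * k) ×ˢ range k).powerset)
    (fun G hG => hf G (mem_powerset.1 hG)) fun G hG G' hG' e => by
      have hG := mem_powerset.1 hG
      have hG' := mem_powerset.1 hG'
      have h := (he G hG).trans (e ▸ (he G' hG').symm)
      have : ∀ a ∈ Ico k (2 * k) ×ˢ range k, a ∈ G ↔ a ∈ G' := fun a ha => by
        have ha := mem_product.1 ha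
        have hs : insert a.1 ((range k).erase a.2) ⊆ range (2 * k) := by
          simp only [subset_iff, mem_Ico, mem_range, mem_insert, mem_erase] at ha ⊢; omega
        rw [bip hG ha.1 ha.2, bip hG' ha.1 ha.2]
        simpa [hs] using Set.ext_iff.1 h (insert a.1 ((range k).erase a.2))
      exact Finset.ext fun a => ⟨fun h => (this a (hG h)).1 h, fun h => (this a (hG' h)).2 h⟩
  have hN : 2 * k + 2 * (c * k) ≤ 2 ^ (c + 1 + j) := by
    have := Nat.lt_two_pow_self (n := c)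
    rw [pow_add, pow_succ, ← hk]; nlinarith
  have h2 := card_biUnion_le_card_mul (range (c * k + 1)) (fun m =>
      (range (2 * k + 2 * (c * k)) ×ˢ range (2 * k + 2 * (c * k))).powersetCard m)
      (2 ^ (2 * (c + 1 + j) * (c * k))) fun m hm => by
    rw [card_powersetCard, card_product, card_range, pow_mul, two_mul (c + 1 + j), pow_add]
    exact (Nat.choose_le_pow _ _).trans ((Nat.pow_le_pow_left (Nat.mul_le_mul hN hN) _).trans
      (Nat.pow_le_pow_right (by positivity) (by simpa [Nat.lt_succ_iff] using hm)))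
  rw [card_product, card_powerset, card_powerset, card_product, Nat.card_Ico, card_range,
    card_range] at this
  rw [card_range] at h2
  have h3 := this.trans (Nat.mul_le_mul_right _ (h2.trans
    (Nat.mul_le_mul_right _ (Nat.lt_two_pow_self (n := c * k)))))
  rw [← pow_add, ← pow_add, Nat.pow_le_pow_iff_right (by norm_num), show 2 * k - k = k by omega] at h3
  nlinarith

theorem result (a b : ℝ) (ha : 0 < a) (hab : a < b) : ∃ (E : Finset ℕ) (I : Set (Finset ℕ)),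
    E.Nonempty ∧ (∃ V A T, IsRep E I V A T) ∧
      a < (arcC E I : ℝ) / #E ∧ (arcC E I : ℝ) / #E < b := by
  have hb := ha.trans hab
  obtain ⟨c, hc⟩ := exists_nat_gt (2 * b + a * b / (b - a))
  obtain ⟨k, hk, I, V, A, T, h, hm⟩ := big c
  set m := arcC (range (2 * k)) I
  have hk' : (1 : ℝ) ≤ k := by exact_mod_cast hk
  have hm' : (c * k : ℝ) < m := by exact_mod_cast hm
  have h0 : 0 < a * b / (b - a) := div_pos (by positivity) (by linarith)
  have h1 : 2 * k ≤ ⌊m / b⌋₊ + 1 := by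
    refine (Nat.le_floor ?_).trans (Nat.le_succ _)
    rw [le_div_iff₀ hb]; push_cast; nlinarith
  obtain ⟨V', A', h', -⟩ := loops h (range_subset_range.2 h1)
  refine ⟨range (⌊m / b⌋₊ + 1), I, by simp, ⟨V', A', T, h'.1⟩, ?_⟩
  rw [arcC_loops h (range_subset_range.2 h1), card_range, lt_div_iff₀ (by positivity),
    div_lt_iff₀ (by positivity)]
  have h2 := Nat.floor_le (show (0 : ℝ) ≤ m / b by positivity)
  have h3 := Nat.lt_floor_add_one (m / b : ℝ)
  rw [div_lt_iff₀ hb] at h3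
  rw [le_div_iff₀ hb] at h2
  have h4 : a * b / (b - a) < m := by nlinarith
  rw [div_lt_iff₀ (by linarith)] at h4
  push_cast
  exact ⟨by nlinarith, by linarith⟩

end Pool.Agent.Results.MP_1bde1f_co.Dense
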